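import Pool.Agent.Lib.MP_edb5be_nt.TS.Iface
import Pool.Agent.Lib.MP_0a5adf_nt.H82.Path
import Pool.Agent.Lib.MP_0a5adf_nt.H87.Badn
import Pool.Agent.Lib.MP_0a5adf_nt.H21.CntPar
import Pool.Agent.Lib.MP_0a5adf_nt.H30.Dyn
import Pool.Agent.Lib.MP_0a5adf_nt.H15.Hoeff

/-!
Project TS, module LINE: almost all trajectories are straight lines.
-/

set_option autoImplicit false

namespace Pool.Agent.Lib.MP_edb5be_nt.TS.H62

open Finset Filter Topology Pool.Agent.Lib.MP_0a5adf_nt Pool.Agent.Lib.MP_0a5adf_nt.TP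
  Pool.Agent.Lib.MP_edb5be_nt.ND Pool.Agent.Lib.MP_edb5be_nt.TS

theorem badn : BadNStatement := H87.badn (H21.cntPar H30.dyn) H30.dyn H15.hoeff

theorem path : PathStatement := H82.path H30.dyn

/-! ### Density one -/

theorem finite_cnt (S : Set ℕ) (X : ℝ) : {N : ℕ | N ∈ S ∧ 1 ≤ N ∧ (N : ℝ) ≤ X}.Finite := by
  refine (Set.finite_Icc 1 ⌊X⌋₊).subset ?_
  rintro N ⟨-, h1, h2⟩
  exact ⟨h1, Nat.le_floor h2⟩

/-- a set that contains the large elements of a set of density one has density one -/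
theorem hasDensN_one_of {A B : Set ℕ} (hA : HasDensN A 1) (n₀ : ℕ)
    (h : ∀ n, n₀ ≤ n → n ∈ A → n ∈ B) : HasDensN B 1 := by
  unfold HasDensN at hA ⊢
  have h0 : Tendsto (fun X : ℝ => (n₀ : ℝ) / X) atTop (𝓝 0) :=
    tendsto_const_nhds.div_atTop tendsto_id
  have h1 := hA.sub h0
  rw [sub_zero] at h1
  refine tendsto_of_tendsto_of_tendsto_of_le_of_le' h1 tendsto_const_nhds ?_ ?_
  · filter_upwards [eventually_gt_atTop (0 : ℝ)] with X hX
    rw [← sub_div]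
    refine div_le_div_of_nonneg_right ?_ hX.le
    have h2 : {N : ℕ | N ∈ A ∧ 1 ≤ N ∧ (N : ℝ) ≤ X} ⊆
        {N : ℕ | N ∈ B ∧ 1 ≤ N ∧ (N : ℝ) ≤ X} ∪ ((range n₀ : Finset ℕ) : Set ℕ) := by
      rintro N ⟨hN, h3⟩
      by_cases hNn : n₀ ≤ N
      · exact Or.inl ⟨h N hNn hN, h3⟩
      · refine Or.inr ?_
        rw [mem_coe, mem_range]
        omega
    have h3 := (Set.ncard_le_ncard h2 ((finite_cnt B X).union (finite_toSet _))).trans
      (Set.ncard_union_le _ _)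
    rw [Set.ncard_coe_finset, card_range] at h3
    have h4 : ({N : ℕ | N ∈ A ∧ 1 ≤ N ∧ (N : ℝ) ≤ X}.ncard : ℝ) ≤
        ({N : ℕ | N ∈ B ∧ 1 ≤ N ∧ (N : ℝ) ≤ X}.ncard : ℝ) + n₀ := by exact_mod_cast h3
    linarith
  · filter_upwards [eventually_gt_atTop (0 : ℝ)] with X hX
    rw [div_le_one hX]
    have h2 : {N : ℕ | N ∈ B ∧ 1 ≤ N ∧ (N : ℝ) ≤ X} ⊆ ((Icc 1 ⌊X⌋₊ : Finset ℕ) : Set ℕ) := by
      rintro N ⟨-, h3, h4⟩
      rw [mem_coe, mem_Icc]
      exact ⟨h3, Nat.le_floor h4⟩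
    have h3 := Set.ncard_le_ncard h2 (finite_toSet _)
    rw [Set.ncard_coe_finset, Nat.card_Icc, Nat.add_sub_cancel] at h3
    calc ({N : ℕ | N ∈ B ∧ 1 ≤ N ∧ (N : ℝ) ≤ X}.ncard : ℝ) ≤ (⌊X⌋₊ : ℝ) := by exact_mod_cast h3
      _ ≤ X := Nat.floor_le hX.le

/-! ### Parity vectors -/

theorem T_dvd (d : Bool) {j n m : ℕ} (h : (2 : ℤ) ^ (j + 1) ∣ (m : ℤ) - n) :
    n % 2 = m % 2 ∧ (2 : ℤ) ^ j ∣ (T d m : ℤ) - T d n := by
  have h2 : (2 : ℤ) ∣ (m : ℤ) - n := (dvd_pow_self 2 (Nat.succ_ne_zero j)).trans h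
  have h3 : n % 2 = m % 2 := by omega
  refine ⟨h3, ?_⟩
  have h4 : (2 : ℤ) ^ (j + 1) ∣ 2 * ((T d m : ℤ) - T d n) := by
    rcases Nat.mod_two_eq_zero_or_one n with h5 | h5
    · have e1 := H30.two_T_even d h5
      have e2 := H30.two_T_even d (N := m) (by omega)
      rw [mul_sub, e1, e2]
      exact h
    · have e1 := H30.two_T_odd d h5
      have e2 := H30.two_T_odd d (N := m) (by omega)
      have e3 : 2 * ((T d m : ℤ) - T d n) = 3 * ((m : ℤ) - n) := by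
        rw [mul_sub, e1, e2]; ring
      rw [e3]
      exact h.mul_left 3
  rw [pow_succ', ] at h4
  exact (mul_dvd_mul_iff_left (by norm_num)).1 h4

theorem iter_dvd (d : Bool) (i : ℕ) : ∀ {j n m : ℕ}, (2 : ℤ) ^ (i + j) ∣ (m : ℤ) - n →
    (2 : ℤ) ^ j ∣ (((T d)^[i] m : ℕ) : ℤ) - ((T d)^[i] n : ℕ) := by
  induction i with
  | zero =>
    intro j n m h
    simpa using h
  | succ i ih =>
    intro j n m h
    rw [Function.iterate_succ_apply, Function.iterate_succ_apply]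
    refine ih (T_dvd d ?_).2
    have e : i + 1 + j = i + j + 1 := by ring
    rwa [e] at h

theorem od_congr (d : Bool) {j k n m : ℕ} (hj : j ≤ k) (h : m ≡ n [MOD 2 ^ k]) :
    od d j m = od d j n := by
  unfold od
  refine sum_congr rfl fun i hi => ?_
  have hi' := mem_range.1 hi
  have h1 : (2 : ℤ) ^ k ∣ (n : ℤ) - m := by
    have := (Nat.modEq_iff_dvd).1 h
    exact_mod_cast this
  have h2 : (2 : ℤ) ^ (i + 1) ∣ (n : ℤ) - m := (pow_dvd_pow 2 (by omega)).trans h1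
  have h3 := iter_dvd d i h2
  rw [pow_one] at h3
  omega

/-! ### The exceptional classes -/

/-- the numbers whose number of odd steps deviates at some time `≤ a / 20` -/
def E (d : Bool) (β : ℝ) (a : ℕ) : Set ℕ :=
  {n : ℕ | ∃ j ≤ a / 20, ((⌈(a : ℝ) ^ β⌉₊ : ℕ) : ℝ) < |2 * (od d j n : ℝ) - j|}

theorem E_congr (d : Bool) (β : ℝ) (a : ℕ) {m n : ℕ} (h : m ≡ n [MOD 2 ^ (a / 20)]) :
    m ∈ E d β a ↔ n ∈ E d β a := by
  unfold E
  simp only [Set.mem_ofPred_eq]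
  constructor
  · rintro ⟨j, hj, h1⟩
    exact ⟨j, hj, by rwa [← od_congr d hj h]⟩
  · rintro ⟨j, hj, h1⟩
    exact ⟨j, hj, by rwa [od_congr d hj h]⟩

open Classical in
theorem E_card (d : Bool) (β : ℝ) (a : ℕ) :
    (((range (2 ^ (a / 20))).filter fun r => r ∈ E d β a).card : ℝ) ≤
      2 ^ (a / 20) * ((((a / 20 : ℕ) : ℝ) + 1) *
        (2 * Real.exp (-(((⌈(a : ℝ) ^ β⌉₊ : ℕ) : ℝ) ^ 2 / (2 * ((a / 20 : ℕ) : ℝ)))))) := by
  refine le_trans ?_ (badn.1 d (a / 20) (a / 20) ⌈(a : ℝ) ^ β⌉₊ le_rfl)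
  rw [Nat.cast_le]
  refine card_le_card_of_injOn (fun r => r + 2 ^ (a / 20)) ?_ ?_
  · intro r hr
    rw [mem_coe, mem_filter, mem_range] at hr
    rw [mem_coe, mem_filter, mem_Ico]
    refine ⟨⟨by simp, ?_⟩, ?_⟩
    · have : 2 ^ (a / 20 + 1) = 2 ^ (a / 20) + 2 ^ (a / 20) := by rw [pow_succ]; ring
      simp only
      omega
    · have h1 : r ≡ r + 2 ^ (a / 20) [MOD 2 ^ (a / 20)] := by
        simp [Nat.ModEq]
      exact (E_congr d β a h1).1 hr.2
  · intro r _ r' _ h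
    simp only at h
    omega

theorem exp_bound (N : ℕ) (y : ℝ) (hy : 0 < y) : Real.exp (-y) ≤ N.factorial / y ^ N := by
  rw [Real.exp_neg, le_div_iff₀ (by positivity), ← div_eq_inv_mul, div_le_iff₀ (Real.exp_pos y)]
  have := Real.pow_div_factorial_le_exp y hy.le N
  rw [div_le_iff₀ (by positivity)] at this
  linarith

open Classical in
theorem E_bc (d : Bool) (β : ℝ) (hβ : 1 / 2 < β) : ∃ C : ℝ, ∀ a : ℕ,
    ∃ k : ℕ, k ≤ a / 20 ∧ (∀ m n : ℕ, m ≡ n [MOD 2 ^ k] → (m ∈ E d β a ↔ n ∈ E d β a)) ∧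
      (((range (2 ^ k)).filter fun r => r ∈ E d β a).card : ℝ) ≤ C / a ^ 3 * 2 ^ k := by
  obtain ⟨N, hN⟩ := exists_nat_gt (4 / (2 * β - 1))
  have hβ' : 0 < 2 * β - 1 := by linarith
  have hN' : 4 < (2 * β - 1) * N := by
    rw [div_lt_iff₀ hβ'] at hN
    linarith
  refine ⟨4 * N.factorial, fun a => ⟨a / 20, le_rfl, fun m n h => E_congr d β a h, ?_⟩⟩
  rcases Nat.lt_or_ge a 20 with ha | ha
  · have h0 : a / 20 = 0 := by omega
    have h1 : ((range (2 ^ (a / 20))).filter fun r => r ∈ E d β a) = ∅ := by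
      rw [filter_eq_empty_iff]
      rintro r - ⟨j, hj, h2⟩
      have h3 : j = 0 := by omega
      subst h3
      have h4 : (0 : ℝ) ≤ ((⌈(a : ℝ) ^ β⌉₊ : ℕ) : ℝ) := Nat.cast_nonneg _
      have h5 : |2 * (od d 0 r : ℝ) - (0 : ℕ)| = 0 := by simp [od]
      rw [h5] at h2
      linarith
    rw [h1, card_empty, Nat.cast_zero]
    positivity
  · refine (E_card d β a).trans ?_
    have ha1 : (1 : ℝ) ≤ a := by exact_mod_cast (by omega : 1 ≤ a)
    have ha0 : (0 : ℝ) < a := by linarith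
    set k : ℕ := a / 20 with hk
    have hk1 : 1 ≤ k := by omega
    have hk0 : (0 : ℝ) < k := by exact_mod_cast hk1
    have hka : (k : ℝ) ≤ a / 20 := Nat.cast_div_le
    set D : ℝ := ((⌈(a : ℝ) ^ β⌉₊ : ℕ) : ℝ) with hD
    have hDa : (a : ℝ) ^ β ≤ D := Nat.le_ceil _
    have haβ : (0 : ℝ) < (a : ℝ) ^ β := by positivity
    have hy : (a : ℝ) ^ (2 * β - 1) ≤ D ^ 2 / (2 * k) := by
      rw [le_div_iff₀ (by positivity)]
      have e1 : (a : ℝ) ^ (2 * β - 1) * (2 * k) ≤ (a : ℝ) ^ (2 * β - 1) * a := by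
        refine mul_le_mul_of_nonneg_left ?_ (by positivity)
        linarith
      have e2 : (a : ℝ) ^ (2 * β - 1) * a = ((a : ℝ) ^ β) ^ 2 := by
        rw [← Real.rpow_add_one ha0.ne', ← Real.rpow_natCast ((a : ℝ) ^ β) 2, ← Real.rpow_mul ha0.le]
        congr 1
        push_cast
        ring
      have e3 : ((a : ℝ) ^ β) ^ 2 ≤ D ^ 2 := pow_le_pow_left₀ haβ.le hDa 2
      linarith
    have h1 : Real.exp (-(D ^ 2 / (2 * k))) ≤ N.factorial / (a : ℝ) ^ 4 := by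
      have e1 : Real.exp (-(D ^ 2 / (2 * k))) ≤ Real.exp (-((a : ℝ) ^ (2 * β - 1))) := by
        apply Real.exp_le_exp.2
        linarith
      have e2 := exp_bound N ((a : ℝ) ^ (2 * β - 1)) (by positivity)
      have e3 : (a : ℝ) ^ 4 ≤ ((a : ℝ) ^ (2 * β - 1)) ^ N := by
        rw [← Real.rpow_natCast ((a : ℝ) ^ (2 * β - 1)) N, ← Real.rpow_mul ha0.le,
          ← Real.rpow_natCast (a : ℝ) 4]
        refine Real.rpow_le_rpow_of_exponent_le ha1 ?_
        push_cast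
        linarith
      refine (e1.trans e2).trans ?_
      exact div_le_div_of_nonneg_left (by positivity) (by positivity) e3
    have h2 : ((k : ℝ) + 1) * (2 * Real.exp (-(D ^ 2 / (2 * k)))) ≤ 4 * N.factorial / (a : ℝ) ^ 3 := by
      have e1 : ((k : ℝ) + 1) ≤ 2 * a := by linarith
      calc ((k : ℝ) + 1) * (2 * Real.exp (-(D ^ 2 / (2 * k))))
          ≤ (2 * a) * (2 * (N.factorial / (a : ℝ) ^ 4)) := by
            refine mul_le_mul e1 ?_ (by positivity) (by positivity)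
            linarith
        _ = 4 * N.factorial / (a : ℝ) ^ 3 := by
            field_simp
            ring
    calc (2 : ℝ) ^ k * (((k : ℝ) + 1) * (2 * Real.exp (-(D ^ 2 / (2 * k)))))
        ≤ 2 ^ k * (4 * N.factorial / (a : ℝ) ^ 3) :=
          mul_le_mul_of_nonneg_left h2 (by positivity)
      _ = 4 * N.factorial / (a : ℝ) ^ 3 * 2 ^ k := by ring

/-! ### The path -/

theorem th_lt : th < 8 / 5 := by
  rw [th, Real.logb_lt_iff_lt_rpow (by norm_num) (by norm_num)]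
  have h1 : ((2 : ℝ) ^ (8 / 5 : ℝ)) ^ (5 : ℕ) = 256 := by
    rw [← Real.rpow_natCast, ← Real.rpow_mul (by norm_num)]
    norm_num
  by_contra h
  push Not at h
  have h2 := pow_le_pow_left₀ (by positivity) h 5
  rw [h1] at h2
  norm_num at h2

theorem mu_gt : 1 / 5 < mu := by
  rw [mu]
  have := th_lt
  linarith

theorem path_log (d : Bool) (m s a D : ℕ) (hm : 2 ^ a ≤ m) (hs : s + 1 ≤ a)
    (hod : |2 * (od d s m : ℝ) - s| ≤ D) :
    |Real.logb 2 ((T d)^[s] m) - (Real.logb 2 m - mu * s)| ≤ 1 + th * D / 2 := by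
  obtain ⟨h1, h2⟩ := path d m s D a hm hs hod
  have hm0 : (0 : ℝ) < m := by
    have : 0 < m := lt_of_lt_of_le (by positivity) hm
    exact_mod_cast this
  have h3 : (0 : ℝ) < (m : ℝ) / 2 * (2 : ℝ) ^ (-(mu * s) - th * D / 2) := by positivity
  have h4 : (0 : ℝ) < ((T d)^[s] m : ℕ) := lt_of_lt_of_le h3 h1
  have h5 := Real.logb_le_logb_of_le (b := 2) (by norm_num) h3 h1
  have h6 := Real.logb_le_logb_of_le (b := 2) (by norm_num) h4 h2
  have e2 : Real.logb 2 2 = 1 := Real.logb_self_eq_one (by norm_num)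
  rw [Real.logb_mul (by positivity) (by positivity), Real.logb_div hm0.ne' (by norm_num), e2,
    Real.logb_rpow (by norm_num) (by norm_num)] at h5
  rw [Real.logb_mul (by positivity) (by positivity), Real.logb_mul (by norm_num) hm0.ne', e2,
    Real.logb_rpow (by norm_num) (by norm_num)] at h6
  rw [abs_le]
  constructor <;> linarith

theorem half_le_T (d : Bool) (x : ℕ) : x ≤ 2 * T d x := by
  rcases Nat.mod_two_eq_zero_or_one x with h | h
  · have := H30.two_T_even d h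
    omega
  · have := H30.two_T_odd d h
    cases d <;> simp only [sg] at this <;> simp at this <;> omega

theorem th_pos : 0 < th := H82.th_pos

/-- the first passage below `2 ^ a` is not far below -/
theorem passage_ge (d : Bool) (n a i : ℕ) (hn : n ≠ 0) (ha : a ≤ Nat.log 2 n + 1)
    (hj : ∀ j < i, 2 ^ a ≤ (T d)^[j] n) : 2 ^ (a - 1) ≤ (T d)^[i] n := by
  rcases Nat.eq_zero_or_pos i with h | h
  · subst h
    simp only [Function.iterate_zero, id_eq]
    exact (Nat.pow_le_pow_right (by norm_num) (by omega)).trans (Nat.pow_log_le_self 2 hn)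
  · obtain ⟨i, rfl⟩ : ∃ i', i = i' + 1 := ⟨i - 1, by omega⟩
    have h1 := hj i (by omega)
    have h2 := half_le_T d ((T d)^[i] n)
    rw [Function.iterate_succ_apply']
    rcases Nat.eq_zero_or_pos a with ha0 | ha0
    · subst ha0
      simp only [pow_zero] at h1
      simp only [zero_le, Nat.sub_eq_zero_of_le, pow_zero]
      omega
    · obtain ⟨a, rfl⟩ : ∃ a', a = a' + 1 := ⟨a - 1, by omega⟩
      rw [Nat.add_sub_cancel]
      rw [pow_succ] at h1
      omega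

theorem large (β : ℝ) (hβ1 : β < 1) : ∃ a₂ : ℕ, ∀ a : ℕ, a₂ ≤ a → 640 * (a : ℝ) ^ β ≤ a := by
  have h1 : Tendsto (fun a : ℕ => (a : ℝ) ^ (1 - β)) atTop atTop :=
    (tendsto_rpow_atTop (by linarith)).comp tendsto_natCast_atTop_atTop
  obtain ⟨a₂, ha₂⟩ := eventually_atTop.1 ((h1.eventually_ge_atTop 640).and (eventually_ge_atTop 1))
  refine ⟨a₂, fun a ha => ?_⟩
  obtain ⟨h2, h3⟩ := ha₂ a ha
  have ha0 : (0 : ℝ) < a := by exact_mod_cast h3
  have e : (a : ℝ) = (a : ℝ) ^ (1 - β) * (a : ℝ) ^ β := by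
    rw [← Real.rpow_add ha0]
    simp
  calc 640 * (a : ℝ) ^ β ≤ (a : ℝ) ^ (1 - β) * (a : ℝ) ^ β :=
        mul_le_mul_of_nonneg_right h2 (by positivity)
    _ = a := e.symm

theorem short (β : ℝ) (hβ : 1 / 2 ≤ β) (a : ℕ) (ha : 1 ≤ a) :
    1 + th * ((⌈(a : ℝ) ^ β⌉₊ : ℕ) : ℝ) / 2 ≤ 3 * (a : ℝ) ^ β := by
  have ha1 : (1 : ℝ) ≤ a := by exact_mod_cast ha
  have h1 : (1 : ℝ) ≤ (a : ℝ) ^ β := Real.one_le_rpow ha1 (by linarith)
  have h2 : ((⌈(a : ℝ) ^ β⌉₊ : ℕ) : ℝ) < (a : ℝ) ^ β + 1 := Nat.ceil_lt_add_one (by positivity)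
  have h3 : th * ((⌈(a : ℝ) ^ β⌉₊ : ℕ) : ℝ) ≤ 8 / 5 * (2 * (a : ℝ) ^ β) :=
    mul_le_mul th_lt.le (by linarith) (Nat.cast_nonneg _) (by norm_num)
  linarith

theorem shrink (β : ℝ) (hβ : 1 / 2 ≤ β) (a : ℕ) (ha : 400 ≤ a) :
    2400 * (((a - a / 200 : ℕ) : ℝ)) ^ β + 3 * (a : ℝ) ^ β ≤ 2400 * (a : ℝ) ^ β := by
  have ha0 : (0 : ℝ) ≤ a := Nat.cast_nonneg _
  have h1 : ((a - a / 200 : ℕ) : ℝ) ≤ 399 / 400 * a := by
    have h2 : 400 * (a - a / 200) ≤ 399 * a := by omega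
    have h3 : (400 : ℝ) * ((a - a / 200 : ℕ) : ℝ) ≤ 399 * a := by exact_mod_cast h2
    linarith
  have h2 : (((a - a / 200 : ℕ) : ℝ)) ^ β ≤ (399 / 400 * (a : ℝ)) ^ β :=
    Real.rpow_le_rpow (Nat.cast_nonneg _) h1 (by linarith)
  rw [Real.mul_rpow (by norm_num) ha0] at h2
  have h3 : (399 / 400 : ℝ) ^ β ≤ (399 / 400 : ℝ) ^ (1 / 2 : ℝ) :=
    Real.rpow_le_rpow_of_exponent_ge (by norm_num) (by norm_num) hβ
  have h4 : (399 / 400 : ℝ) ^ (1 / 2 : ℝ) ≤ 799 / 800 := by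
    rw [← Real.sqrt_eq_rpow, Real.sqrt_le_left (by norm_num)]
    norm_num
  have h5 : (399 / 400 : ℝ) ^ β * (a : ℝ) ^ β ≤ 799 / 800 * (a : ℝ) ^ β :=
    mul_le_mul_of_nonneg_right (h3.trans h4) (by positivity)
  linarith

theorem key (d : Bool) (β : ℝ) (hβ : 1 / 2 ≤ β) (hβ1 : β < 1) :
    ∃ a₁ : ℕ, ∀ (n L : ℕ) (G : ℝ), n ≠ 0 → a₁ ≤ L → (2 : ℝ) ^ L ≤ G →
      (∀ a : ℕ, L ≤ a → a ≤ Nat.log 2 n + 1 → n ∉ HB d a (E d β a)) →
      ∀ a i : ℕ, a ≤ Nat.log 2 n + 1 → (T d)^[i] n < 2 ^ a → (∀ j < i, 2 ^ a ≤ (T d)^[j] n) →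
      ∀ k : ℕ, i ≤ k → (∀ j ≤ k, G ≤ (((T d)^[j] n : ℕ) : ℝ)) →
      |Real.logb 2 ((T d)^[k] n) - (Real.logb 2 ((T d)^[i] n) - mu * ((k : ℝ) - i))| ≤
        2400 * (a : ℝ) ^ β := by
  obtain ⟨a₂, ha₂⟩ := large β hβ1
  refine ⟨max a₂ 400, fun n L G hn hL hG hgood a => ?_⟩
  induction a using Nat.strong_induction_on with
  | _ a ih =>
    intro i ha hi hj k hik hk
    have hLa : L < a := by
      have h1 : (2 : ℝ) ^ L < 2 ^ a :=
        lt_of_le_of_lt (hG.trans (hk i hik)) (by exact_mod_cast hi)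
      exact (pow_lt_pow_iff_right₀ (by norm_num)).1 h1
    have ha400 : 400 ≤ a := by
      have := le_max_right a₂ 400
      omega
    have ha2 : a₂ ≤ a := by
      have := le_max_left a₂ 400
      omega
    have hbig := ha₂ a ha2
    have ha0 : (0 : ℝ) < a := by exact_mod_cast (by omega : 0 < a)
    have hm := passage_ge d n a i hn ha hj
    have hE : (T d)^[i] n ∉ E d β a := fun h => hgood a hLa.le ha ⟨i, hi, hj, h⟩
    have hod : ∀ s : ℕ, s ≤ a / 20 → |2 * (od d s ((T d)^[i] n) : ℝ) - s| ≤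
        ((⌈(a : ℝ) ^ β⌉₊ : ℕ) : ℝ) := by
      intro s hs
      by_contra h
      push Not at h
      exact hE ⟨s, hs, h⟩
    have hpl : ∀ s : ℕ, s ≤ a / 20 →
        |Real.logb 2 ((T d)^[i + s] n) - (Real.logb 2 ((T d)^[i] n) - mu * s)| ≤
          3 * (a : ℝ) ^ β := by
      intro s hs
      have h1 := path_log d ((T d)^[i] n) s (a - 1) ⌈(a : ℝ) ^ β⌉₊ hm (by omega) (hod s hs)
      rw [← Function.iterate_add_apply, add_comm s i] at h1
      exact h1.trans (short β hβ a (by omega))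
    by_cases hs : k - i ≤ a / 20
    · have h1 := hpl (k - i) hs
      rw [Nat.add_sub_cancel' hik, Nat.cast_sub hik] at h1
      refine h1.trans ?_
      have : (0 : ℝ) ≤ (a : ℝ) ^ β := by positivity
      linarith
    · push Not at hs
      have hlow : (T d)^[i + a / 20] n < 2 ^ (a - a / 200) := by
        have h1 := path_log d ((T d)^[i] n) (a / 20) (a - 1) ⌈(a : ℝ) ^ β⌉₊ hm (by omega)
          (hod _ le_rfl)
        rw [← Function.iterate_add_apply, add_comm (a / 20) i] at h1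
        have h2 := short β hβ a (by omega)
        have h3 : Real.logb 2 ((T d)^[i] n) < a := by
          have h4 : (0 : ℝ) < (((T d)^[i] n : ℕ) : ℝ) := by
            have : 0 < (T d)^[i] n := lt_of_lt_of_le (by positivity) hm
            exact_mod_cast this
          rw [Real.logb_lt_iff_lt_rpow (by norm_num) h4, Real.rpow_natCast]
          exact_mod_cast hi
        have h5 : (1 / 5 : ℝ) * ((a : ℝ) / 20 - 1) ≤ mu * ((a / 20 : ℕ) : ℝ) := by
          have h6 : (a : ℝ) / 20 - 1 ≤ ((a / 20 : ℕ) : ℝ) := by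
            have h7 : a ≤ 20 * (a / 20) + 20 := by omega
            have h8 : (a : ℝ) ≤ 20 * ((a / 20 : ℕ) : ℝ) + 20 := by exact_mod_cast h7
            linarith
          have h9 : (0 : ℝ) ≤ (a : ℝ) / 20 - 1 := by
            have : (400 : ℝ) ≤ a := by exact_mod_cast ha400
            linarith
          exact mul_le_mul mu_gt.le h6 h9 (by linarith [mu_gt])
        have h10 : Real.logb 2 ((T d)^[i + a / 20] n) < ((a - a / 200 : ℕ) : ℝ) := by
          have h11 : ((a - a / 200 : ℕ) : ℝ) ≥ a - (a : ℝ) / 200 := by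
            have h12 : 199 * a ≤ 200 * (a - a / 200) := by omega
            have h13 : (199 : ℝ) * a ≤ 200 * ((a - a / 200 : ℕ) : ℝ) := by exact_mod_cast h12
            linarith
          have h14 := (abs_le.1 h1).2
          have h15 : (1 : ℝ) ≤ (a : ℝ) ^ β :=
            Real.one_le_rpow (by exact_mod_cast (by omega : 1 ≤ a)) (by linarith)
          linarith
        rcases Nat.eq_zero_or_pos ((T d)^[i + a / 20] n) with h16 | h16
        · rw [h16]
          positivity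
        · rw [Real.logb_lt_iff_lt_rpow (by norm_num) (by exact_mod_cast h16),
            Real.rpow_natCast] at h10
          exact_mod_cast h10
      classical
      have hex : ∃ s : ℕ, (T d)^[i + s] n < 2 ^ (a - a / 200) := ⟨_, hlow⟩
      set s₁ := Nat.find hex with hs₁
      have h1 : (T d)^[i + s₁] n < 2 ^ (a - a / 200) := Nat.find_spec hex
      have h2 : s₁ ≤ a / 20 := Nat.find_min' hex hlow
      have h3 : ∀ s < s₁, 2 ^ (a - a / 200) ≤ (T d)^[i + s] n := fun s hs =>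
        not_lt.1 (Nat.find_min hex hs)
      have h4 := ih (a - a / 200) (by omega) (i + s₁) (by omega) h1 (by
        intro j hj'
        rcases Nat.lt_or_ge j i with h5 | h5
        · exact (Nat.pow_le_pow_right (by norm_num) (by omega)).trans (hj j h5)
        · obtain ⟨s, rfl⟩ := Nat.exists_eq_add_of_le h5
          exact h3 s (by omega)) k (by omega) hk
      have h5 := hpl s₁ h2
      have h6 := shrink β hβ a ha400
      push_cast at h4
      rw [abs_le] at h4 h5 ⊢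
      constructor
      · nlinarith [h4.1, h5.1, h6]
      · nlinarith [h4.2, h5.2, h6]

/-! ### The theorem -/

theorem nu_eq : nu = mu * Real.log 2 := by
  have h2 : Real.log 2 ≠ 0 := (Real.log_pos (by norm_num)).ne'
  rw [nu, mu, th, Real.logb, Real.log_div (by norm_num) (by norm_num),
    show (4 : ℝ) = 2 ^ 2 by norm_num, Real.log_pow]
  field_simp
  push_cast
  ring

theorem tendsto_natLog : Tendsto (fun n : ℕ => Nat.log 2 n) atTop atTop := by
  refine tendsto_atTop_atTop.2 fun b => ⟨2 ^ b, fun n hn => ?_⟩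
  calc b = Nat.log 2 (2 ^ b) := (Nat.log_pow (by norm_num) b).symm
    _ ≤ Nat.log 2 n := Nat.log_mono_right hn

theorem final_bound (β γ : ℝ) (hβ : 0 ≤ β) (hβ1 : β ≤ 1) (hγ : β < γ) :
    ∀ᶠ n : ℕ in atTop,
      Real.log 2 * (2400 * ((Nat.log 2 n + 1 : ℕ) : ℝ) ^ β) ≤ Real.log n ^ γ := by
  have hlog : Tendsto (fun n : ℕ => Real.log n) atTop atTop :=
    Real.tendsto_log_atTop.comp tendsto_natCast_atTop_atTop
  have h1 : Tendsto (fun n : ℕ => Real.log n ^ (γ - β)) atTop atTop :=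
    (tendsto_rpow_atTop (by linarith)).comp hlog
  filter_upwards [h1.eventually_ge_atTop 7200, hlog.eventually_ge_atTop 1,
    eventually_ge_atTop 1] with n h2 h3 h4
  have hlog0 : 0 < Real.log n := by linarith
  have hl2 : (1 / 2 : ℝ) < Real.log 2 := by
    have := Real.log_two_gt_d9
    linarith
  have hl2' : Real.log 2 < 1 := by
    have := Real.log_two_lt_d9
    linarith
  have h5 : ((Nat.log 2 n + 1 : ℕ) : ℝ) ≤ 3 * Real.log n := by
    have h6 : ((2 ^ Nat.log 2 n : ℕ) : ℝ) ≤ n := by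
      exact_mod_cast Nat.pow_log_le_self 2 (by omega)
    have h7 := Real.log_le_log (by positivity) h6
    rw [Nat.cast_pow, Real.log_pow] at h7
    push_cast at h7 ⊢
    nlinarith [(Nat.cast_nonneg (Nat.log 2 n) : (0 : ℝ) ≤ (Nat.log 2 n : ℝ))]
  have h6 : ((Nat.log 2 n + 1 : ℕ) : ℝ) ^ β ≤ 3 * Real.log n ^ β := by
    refine (Real.rpow_le_rpow (Nat.cast_nonneg _) h5 hβ).trans ?_
    rw [Real.mul_rpow (by norm_num) hlog0.le]
    refine mul_le_mul_of_nonneg_right ?_ (by positivity)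
    calc (3 : ℝ) ^ β ≤ 3 ^ (1 : ℝ) := Real.rpow_le_rpow_of_exponent_le (by norm_num) hβ1
      _ = 3 := by norm_num
  have h7 : Real.log n ^ γ = Real.log n ^ (γ - β) * Real.log n ^ β := by
    rw [← Real.rpow_add hlog0]
    simp
  have h8 : 0 ≤ Real.log n ^ β := by positivity
  calc Real.log 2 * (2400 * ((Nat.log 2 n + 1 : ℕ) : ℝ) ^ β)
      ≤ 1 * (2400 * (3 * Real.log n ^ β)) := by
        refine mul_le_mul hl2'.le ?_ (by positivity) (by norm_num)
        linarith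
    _ = 7200 * Real.log n ^ β := by ring
    _ ≤ Real.log n ^ (γ - β) * Real.log n ^ β := mul_le_mul_of_nonneg_right h2 h8
    _ = Real.log n ^ γ := h7.symm

theorem line (hBC : BCStatement) : LineStatement := by
  obtain ⟨a₀, hBC⟩ := hBC
  intro d g hg ε hε
  obtain ⟨β, hβ, hβ1, hβε⟩ : ∃ β : ℝ, 1 / 2 < β ∧ β < 1 ∧ β < 1 / 2 + ε := by
    refine ⟨1 / 2 + min (ε / 2) (1 / 4), ?_, ?_, ?_⟩
    · have : 0 < min (ε / 2) (1 / 4) := lt_min (by linarith) (by norm_num)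
      linarith
    · have := min_le_right (ε / 2) (1 / 4)
      linarith
    · have := min_le_left (ε / 2) (1 / 4)
      linarith
  obtain ⟨C, hC⟩ := E_bc d β hβ
  obtain ⟨a₁, hkey⟩ := key d β hβ.le hβ1
  have hl : Tendsto (fun n => Nat.log 2 ⌊g n⌋₊) atTop atTop :=
    tendsto_natLog.comp (tendsto_nat_floor_atTop.comp hg)
  have hdens := hBC d (E d β) C (fun a _ => hC a) _ hl
  obtain ⟨n₀, hn₀⟩ := eventually_atTop.1 ((eventually_ge_atTop 1).and
    ((hl.eventually_ge_atTop a₁).and ((hg.eventually_ge_atTop 1).and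
      (final_bound β (1 / 2 + ε) (by linarith) hβ1.le hβε))))
  refine hasDensN_one_of hdens n₀ fun n hn hgood => ?_
  obtain ⟨h1, h2, h3, h4⟩ := hn₀ n hn
  intro k hk
  have hG : (2 : ℝ) ^ (Nat.log 2 ⌊g n⌋₊) ≤ g n := by
    have h5 : ⌊g n⌋₊ ≠ 0 := by
      have := (Nat.one_le_floor_iff _).2 h3
      omega
    have h6 : ((2 ^ Nat.log 2 ⌊g n⌋₊ : ℕ) : ℝ) ≤ (⌊g n⌋₊ : ℝ) := by
      exact_mod_cast Nat.pow_log_le_self 2 h5
    rw [Nat.cast_pow] at h6
    exact h6.trans (Nat.floor_le (by linarith))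
  have h5 := hkey n _ (g n) (by omega) h2 hG hgood (Nat.log 2 n + 1) 0 le_rfl
    (Nat.lt_pow_succ_log_self (by norm_num) n) (by omega) k (Nat.zero_le _) hk
  rw [Function.iterate_zero, id_eq, Nat.cast_zero, sub_zero] at h5
  have hl2 : 0 < Real.log 2 := Real.log_pos (by norm_num)
  have e : Real.log ((T d)^[k] n) - (Real.log n - nu * k) =
      Real.log 2 * (Real.logb 2 ((T d)^[k] n) - (Real.logb 2 n - mu * k)) := by
    rw [nu_eq, Real.logb, Real.logb]
    field_simp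
  rw [e, abs_mul, abs_of_pos hl2]
  exact (mul_le_mul_of_nonneg_left h5 hl2.le).trans h4

end Pool.Agent.Lib.MP_edb5be_nt.TS.H62
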