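import Pool.Agent.Lib.MP_edb5be_nt.TS.H62.Line

/-!
Project TS, second stage: the maximal inequality for the number of odd steps.
-/

set_option autoImplicit false

namespace Pool.Agent.Lib.MP_edb5be_nt.TS.H62

open Finset Filter Topology Pool.Agent.Lib.MP_0a5adf_nt Pool.Agent.Lib.MP_0a5adf_nt.TP
  Pool.Agent.Lib.MP_edb5be_nt.ND Pool.Agent.Lib.MP_edb5be_nt.TS

theorem T_step_inj (d : Bool) {k n m : ℕ} (h : n % 2 = m % 2)
    (h' : (2 : ℤ) ^ k ∣ (T d m : ℤ) - T d n) : (2 : ℤ) ^ (k + 1) ∣ (m : ℤ) - n := by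
  have h1 : (2 : ℤ) ^ (k + 1) ∣ 2 * ((T d m : ℤ) - T d n) := by
    rw [pow_succ']
    exact mul_dvd_mul_left 2 h'
  rcases Nat.mod_two_eq_zero_or_one n with h5 | h5
  · have e1 := H30.two_T_even d h5
    have e2 := H30.two_T_even d (N := m) (by omega)
    rw [mul_sub, e1, e2] at h1
    exact h1
  · have e1 := H30.two_T_odd d h5
    have e2 := H30.two_T_odd d (N := m) (by omega)
    have e3 : 2 * ((T d m : ℤ) - T d n) = 3 * ((m : ℤ) - n) := by
      rw [mul_sub, e1, e2]; ring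
    rw [e3] at h1
    refine IsCoprime.dvd_of_dvd_mul_left ?_ h1
    exact (show IsCoprime (2 : ℤ) 3 by norm_num).pow_left

/-- One step of the trajectory is a bijection of the residues. -/
theorem sum_step {M : Type*} [AddCommMonoid M] (d : Bool) (k : ℕ) (g : ℕ → ℕ → M) :
    ∑ r ∈ range (2 ^ (k + 1)), g (r % 2) (T d r % 2 ^ k) =
      ∑ r ∈ range (2 ^ k), g 0 r + ∑ r ∈ range (2 ^ k), g 1 r := by
  have h1 : ∑ r ∈ range (2 ^ (k + 1)), g (r % 2) (T d r % 2 ^ k) =
      ∑ x ∈ range 2 ×ˢ range (2 ^ k), g x.1 x.2 := by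
    have hmaps : ∀ r ∈ range (2 ^ (k + 1)), (r % 2, T d r % 2 ^ k) ∈ range 2 ×ˢ range (2 ^ k) := by
      intro r _
      rw [mem_product, mem_range, mem_range]
      exact ⟨Nat.mod_lt _ (by norm_num), Nat.mod_lt _ (by positivity)⟩
    have hinj : Set.InjOn (fun r : ℕ => (r % 2, T d r % 2 ^ k)) (range (2 ^ (k + 1)) : Finset ℕ) := by
      intro r hr r' hr' h
      rw [coe_range, Set.mem_Iio] at hr hr'
      simp only [Prod.mk.injEq] at h
      have h2 : T d r ≡ T d r' [MOD 2 ^ k] := h.2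
      have h3 := (Nat.modEq_iff_dvd).1 h2
      push_cast at h3
      have h4 := T_step_inj d h.1 h3
      have h5 : r ≡ r' [MOD 2 ^ (k + 1)] := by
        rw [Nat.modEq_iff_dvd]
        exact_mod_cast h4
      rw [Nat.ModEq, Nat.mod_eq_of_lt hr, Nat.mod_eq_of_lt hr'] at h5
      exact h5
    refine sum_nbij (fun r : ℕ => (r % 2, T d r % 2 ^ k)) hmaps hinj ?_ (fun _ _ => rfl)
    refine surjOn_of_injOn_of_card_le _ hmaps hinj ?_
    rw [card_product, card_range, card_range, card_range, pow_succ]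
    omega
  rw [h1, sum_product, sum_range_succ, sum_range_one]

theorem od_succ (d : Bool) (s n : ℕ) : od d (s + 1) n = n % 2 + od d s (T d n) := by
  unfold od
  rw [sum_range_succ', add_comm]
  rfl

/-- The walk crosses the level `D`. -/
def Cross (d : Bool) (σ : ℝ) (k : ℕ) (D : ℝ) (n : ℕ) : Prop :=
  ∃ s ≤ k, D ≤ σ * (2 * (od d s n : ℝ) - s)

theorem cross_congr (d : Bool) (σ : ℝ) (k : ℕ) (D : ℝ) {m n : ℕ} (h : m ≡ n [MOD 2 ^ k]) :
    Cross d σ k D m ↔ Cross d σ k D n := by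
  unfold Cross
  constructor
  · rintro ⟨s, hs, h1⟩
    exact ⟨s, hs, by rwa [← od_congr d hs h]⟩
  · rintro ⟨s, hs, h1⟩
    exact ⟨s, hs, by rwa [od_congr d hs h]⟩

theorem cross_succ (d : Bool) (σ : ℝ) (k : ℕ) (D : ℝ) (hD : 0 < D) (n : ℕ) :
    Cross d σ (k + 1) D n ↔ Cross d σ k (D - σ * (2 * ((n % 2 : ℕ) : ℝ) - 1)) (T d n) := by
  unfold Cross
  constructor
  · rintro ⟨s, hs, h1⟩
    rcases s with _ | s
    · simp [od] at h1
      linarith
    · refine ⟨s, by omega, ?_⟩
      rw [od_succ] at h1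
      push_cast at h1 ⊢
      linarith
  · rintro ⟨s, hs, h1⟩
    refine ⟨s + 1, by omega, ?_⟩
    rw [od_succ]
    push_cast at h1 ⊢
    linarith

open Classical in
/-- the number of crossings -/
noncomputable def nC (d : Bool) (σ : ℝ) (k : ℕ) (D : ℝ) : ℝ :=
  ∑ r ∈ range (2 ^ k), if Cross d σ k D r then 1 else 0

theorem nC_le (d : Bool) (σ : ℝ) (k : ℕ) (D : ℝ) : nC d σ k D ≤ 2 ^ k := by
  classical
  unfold nC
  refine (sum_le_sum (g := fun _ => (1 : ℝ)) fun r _ => ?_).trans ?_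
  · split_ifs <;> norm_num
  · simp

theorem nC_succ (d : Bool) (σ : ℝ) (hσ : σ = 1 ∨ σ = -1) (k : ℕ) (D : ℝ) (hD : 0 < D) :
    nC d σ (k + 1) D = nC d σ k (D + 1) + nC d σ k (D - 1) := by
  classical
  have h1 := sum_step d k (fun b r => if Cross d σ k (D - σ * (2 * (b : ℝ) - 1)) r then (1 : ℝ) else 0)
  have h2 : nC d σ (k + 1) D = ∑ r ∈ range (2 ^ (k + 1)),
      (if Cross d σ k (D - σ * (2 * ((r % 2 : ℕ) : ℝ) - 1)) (T d r % 2 ^ k) then (1 : ℝ) else 0) := by
    unfold nC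
    refine sum_congr rfl fun r _ => ?_
    have h3 : Cross d σ (k + 1) D r ↔
        Cross d σ k (D - σ * (2 * ((r % 2 : ℕ) : ℝ) - 1)) (T d r % 2 ^ k) :=
      (cross_succ d σ k D hD r).trans (cross_congr d σ k _ (Nat.mod_modEq _ _).symm)
    by_cases h4 : Cross d σ (k + 1) D r
    · rw [if_pos h4, if_pos (h3.1 h4)]
    · rw [if_neg h4, if_neg (fun h => h4 (h3.2 h))]
  rw [h2, h1]
  have e1 : D - σ * (2 * ((0 : ℕ) : ℝ) - 1) = D + σ := by push_cast; ring
  have e2 : D - σ * (2 * ((1 : ℕ) : ℝ) - 1) = D - σ := by push_cast; ring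
  rw [e1, e2]
  unfold nC
  rcases hσ with h | h
  · rw [h]
  · rw [h, add_comm, sub_neg_eq_add, sub_eq_add_neg]

theorem nC_bound (d : Bool) (σ : ℝ) (hσ : σ = 1 ∨ σ = -1) (l : ℝ) (hl : 0 ≤ l) (k : ℕ) :
    ∀ D : ℝ, nC d σ k D ≤ Real.exp (-(l * D)) * (2 * Real.cosh l) ^ k := by
  induction k with
  | zero =>
    intro D
    rcases le_or_gt D 0 with hD | hD
    · have h1 := nC_le d σ 0 D
      have h2 : 1 ≤ Real.exp (-(l * D)) := Real.one_le_exp (by nlinarith)
      simpa using h1.trans (by simpa using h2)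
    · have h1 : nC d σ 0 D = 0 := by
        classical
        unfold nC
        refine sum_eq_zero fun r _ => if_neg ?_
        rintro ⟨s, hs, h2⟩
        have : s = 0 := by omega
        subst this
        simp [od] at h2
        linarith
      rw [h1]
      positivity
  | succ k ih =>
    intro D
    rcases le_or_gt D 0 with hD | hD
    · refine (nC_le d σ (k + 1) D).trans ?_
      have h1 : 1 ≤ Real.exp (-(l * D)) := Real.one_le_exp (by nlinarith)
      have h2 : (2 : ℝ) ^ (k + 1) ≤ (2 * Real.cosh l) ^ (k + 1) := by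
        refine pow_le_pow_left₀ (by norm_num) ?_ _
        have := Real.one_le_cosh l
        linarith
      calc (2 : ℝ) ^ (k + 1) ≤ (2 * Real.cosh l) ^ (k + 1) := h2
        _ ≤ Real.exp (-(l * D)) * (2 * Real.cosh l) ^ (k + 1) :=
          le_mul_of_one_le_left (by positivity) h1
    · rw [nC_succ d σ hσ k D hD]
      have h1 := ih (D + 1)
      have h2 := ih (D - 1)
      have e1 : Real.exp (-(l * (D + 1))) = Real.exp (-(l * D)) * Real.exp (-l) := by
        rw [← Real.exp_add]; ring_nf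
      have e2 : Real.exp (-(l * (D - 1))) = Real.exp (-(l * D)) * Real.exp l := by
        rw [← Real.exp_add]; ring_nf
      have e3 : 2 * Real.cosh l = Real.exp l + Real.exp (-l) := by rw [Real.cosh_eq]; ring
      calc nC d σ k (D + 1) + nC d σ k (D - 1)
          ≤ Real.exp (-(l * (D + 1))) * (2 * Real.cosh l) ^ k +
            Real.exp (-(l * (D - 1))) * (2 * Real.cosh l) ^ k := add_le_add h1 h2
        _ = Real.exp (-(l * D)) * (2 * Real.cosh l) ^ (k + 1) := by
          rw [e1, e2, pow_succ, e3]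
          ring

/-- The exponential bound. -/
theorem nC_exp (d : Bool) (σ : ℝ) (hσ : σ = 1 ∨ σ = -1) (k : ℕ) (hk : 0 < k) (D : ℝ) (hD : 0 ≤ D) :
    nC d σ k D ≤ 2 ^ k * Real.exp (-(D ^ 2 / (2 * k))) := by
  have hk0 : (0 : ℝ) < k := by exact_mod_cast hk
  refine (nC_bound d σ hσ (D / k) (by positivity) k D).trans ?_
  have h1 : (2 * Real.cosh (D / k)) ^ k ≤ (2 * Real.exp ((D / k) ^ 2 / 2)) ^ k := by
    refine pow_le_pow_left₀ (by positivity) ?_ _
    have := Real.cosh_le_exp_half_sq (D / k)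
    linarith
  calc Real.exp (-(D / k * D)) * (2 * Real.cosh (D / k)) ^ k
      ≤ Real.exp (-(D / k * D)) * (2 * Real.exp ((D / k) ^ 2 / 2)) ^ k :=
        mul_le_mul_of_nonneg_left h1 (Real.exp_pos _).le
    _ = 2 ^ k * Real.exp (-(D ^ 2 / (2 * k))) := by
        rw [mul_pow, ← Real.exp_nat_mul, mul_left_comm, ← Real.exp_add]
        congr 2
        field_simp
        ring

/-- The numbers whose number of odd steps deviates at some time `≤ k`. -/
def ES (d : Bool) (D : ℝ) (k : ℕ) : Set ℕ := {n : ℕ | ∃ s ≤ k, D < |2 * (od d s n : ℝ) - s|}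

theorem ES_congr (d : Bool) (D : ℝ) (k : ℕ) {m n : ℕ} (h : m ≡ n [MOD 2 ^ k]) :
    m ∈ ES d D k ↔ n ∈ ES d D k := by
  unfold ES
  simp only [Set.mem_ofPred_eq]
  constructor
  · rintro ⟨j, hj, h1⟩
    exact ⟨j, hj, by rwa [← od_congr d hj h]⟩
  · rintro ⟨j, hj, h1⟩
    exact ⟨j, hj, by rwa [od_congr d hj h]⟩

open Classical in
/-- The maximal inequality. -/
theorem maxS (d : Bool) (k : ℕ) (D : ℝ) (hD : 0 ≤ D) :
    (((range (2 ^ k)).filter fun r => r ∈ ES d D k).card : ℝ) ≤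
      2 * Real.exp (-(D ^ 2 / (2 * k))) * 2 ^ k := by
  rcases Nat.eq_zero_or_pos k with h0 | h0
  · subst h0
    have h1 : ((range (2 ^ 0)).filter fun r => r ∈ ES d D 0) = ∅ := by
      rw [filter_eq_empty_iff]
      rintro r - ⟨j, hj, h2⟩
      have h3 : j = 0 := by omega
      subst h3
      simp [od] at h2
      linarith
    rw [h1, card_empty, Nat.cast_zero]
    positivity
  · have h1 := nC_exp d 1 (Or.inl rfl) k h0 D hD
    have h2 := nC_exp d (-1) (Or.inr rfl) k h0 D hD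
    have h3 : (((range (2 ^ k)).filter fun r => r ∈ ES d D k).card : ℝ) ≤
        nC d 1 k D + nC d (-1) k D := by
      unfold nC
      rw [← sum_add_distrib, card_filter, Nat.cast_sum]
      refine sum_le_sum fun r _ => ?_
      by_cases h : r ∈ ES d D k
      · rw [if_pos h]
        obtain ⟨s, hs, h4⟩ := h
        rcases lt_abs.1 h4 with h5 | h5
        · rw [if_pos (show Cross d 1 k D r from ⟨s, hs, by linarith⟩)]
          split_ifs <;> norm_num
        · rw [if_pos (show Cross d (-1) k D r from ⟨s, hs, by linarith⟩)]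
          split_ifs <;> norm_num
      · rw [if_neg h]
        split_ifs <;> norm_num
    linarith

end Pool.Agent.Lib.MP_edb5be_nt.TS.H62
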