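import Pool.Agent.Lib.MP_edb5be_nt.TS.H62.ChainS
import Pool.Agent.Lib.MP_edb5be_nt.TS.H62.MaxS
import Pool.Agent.Lib.MP_edb5be_nt.TS.Iface2

/-!
Project TS, second stage, module LINES: deviations of the order `√(log n)`.
-/

set_option autoImplicit false

namespace Pool.Agent.Lib.MP_edb5be_nt.TS.H62

open Finset Filter Topology Pool.Agent.Lib.MP_0a5adf_nt Pool.Agent.Lib.MP_0a5adf_nt.TP
  Pool.Agent.Lib.MP_edb5be_nt.ND Pool.Agent.Lib.MP_edb5be_nt.TS

/-- `(U b) ^ (1 / 4)`. -/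
noncomputable def Qr (U b : ℕ) : ℝ := √(√((U : ℝ) * b))

theorem Qr_nonneg (U b : ℕ) : 0 ≤ Qr U b := Real.sqrt_nonneg _

theorem Qr_pow (U b : ℕ) : Qr U b ^ 4 = U * b := by
  have h : (0 : ℝ) ≤ (U : ℝ) * b := by positivity
  unfold Qr
  calc √(√((U : ℝ) * b)) ^ 4 = (√(√((U : ℝ) * b)) ^ 2) ^ 2 := by ring
    _ = (U : ℝ) * b := by rw [Real.sq_sqrt (Real.sqrt_nonneg _), Real.sq_sqrt h]

/-- The threshold of the level `b` in the block `U`. -/
noncomputable def Dth (R : ℝ) (U b : ℕ) : ℝ := min (R * Qr U b) ((b : ℝ) / 1000)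

theorem Qr_one {U b : ℕ} (hU : 1 ≤ U) (hb : 1 ≤ b) : 1 ≤ Qr U b := by
  have h1 : (1 : ℝ) ≤ (U : ℝ) * b := by
    have : 1 ≤ U * b := Nat.mul_pos hU hb
    exact_mod_cast this
  unfold Qr
  exact Real.one_le_sqrt.2 (Real.one_le_sqrt.2 h1)

theorem Dth_one {R : ℝ} (hR : 1 ≤ R) {U b : ℕ} (hU : 1 ≤ U) (hb : 1000 ≤ b) : 1 ≤ Dth R U b := by
  have h1 := Qr_one hU (show 1 ≤ b by omega)
  have h2 : (1000 : ℝ) ≤ b := by exact_mod_cast hb
  unfold Dth
  refine le_min ?_ ?_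
  · nlinarith
  · linarith

/-- The probability of a large deviation. -/
theorem cost {R : ℝ} (hR : 1 ≤ R) {U b : ℕ} (hU : 1 ≤ U) (hb : 1000 ≤ b) :
    2 * Real.exp (-(((⌈Dth R U b⌉₊ : ℕ) : ℝ) ^ 2 / (2 * ((b / 20 : ℕ) : ℝ)))) ≤
      b / (R ^ 4 * U) + 10 ^ 12 / b ^ 2 := by
  have hb0 : (0 : ℝ) < b := by exact_mod_cast (by omega : 0 < b)
  have hU0 : (0 : ℝ) < U := by exact_mod_cast hU
  have hR0 : 0 < R := by linarith
  have hD1 := Dth_one hR hU hb
  have hD0 : 0 < Dth R U b := by linarith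
  have hDc : Dth R U b ≤ ((⌈Dth R U b⌉₊ : ℕ) : ℝ) := Nat.le_ceil _
  have hk0 : (0 : ℝ) < ((b / 20 : ℕ) : ℝ) := by exact_mod_cast (by omega : 0 < b / 20)
  have hk1 : ((b / 20 : ℕ) : ℝ) ≤ b / 20 := Nat.cast_div_le
  have h1 : 10 * Dth R U b ^ 2 / b ≤
      ((⌈Dth R U b⌉₊ : ℕ) : ℝ) ^ 2 / (2 * ((b / 20 : ℕ) : ℝ)) := by
    rw [div_le_div_iff₀ hb0 (by positivity)]
    have h2 : Dth R U b ^ 2 ≤ ((⌈Dth R U b⌉₊ : ℕ) : ℝ) ^ 2 := pow_le_pow_left₀ hD0.le hDc 2
    calc 10 * Dth R U b ^ 2 * (2 * ((b / 20 : ℕ) : ℝ)) ≤ 10 * Dth R U b ^ 2 * (2 * (b / 20)) := by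
          gcongr
      _ = Dth R U b ^ 2 * b := by ring
      _ ≤ _ := by gcongr
  have h2 : 0 < 10 * Dth R U b ^ 2 / b := by positivity
  have h3 := exp_bound 2 _ h2
  have h4 : Real.exp (-(((⌈Dth R U b⌉₊ : ℕ) : ℝ) ^ 2 / (2 * ((b / 20 : ℕ) : ℝ)))) ≤
      Real.exp (-(10 * Dth R U b ^ 2 / b)) := Real.exp_le_exp.2 (by linarith)
  have h5 : 2 * (((Nat.factorial 2 : ℕ) : ℝ) / (10 * Dth R U b ^ 2 / b) ^ 2) ≤
      b ^ 2 / Dth R U b ^ 4 := by
    have : 2 * (((Nat.factorial 2 : ℕ) : ℝ) / (10 * Dth R U b ^ 2 / b) ^ 2) =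
        (1 / 25) * (b ^ 2 / Dth R U b ^ 4) := by
      rw [show Nat.factorial 2 = 2 from rfl]
      field_simp
      norm_num
    rw [this]
    have h6 : 0 ≤ (b : ℝ) ^ 2 / Dth R U b ^ 4 := by positivity
    linarith
  have h6 : (b : ℝ) ^ 2 / Dth R U b ^ 4 ≤ b / (R ^ 4 * U) + 10 ^ 12 / b ^ 2 := by
    have e1 : 0 ≤ (b : ℝ) / (R ^ 4 * U) := by positivity
    have e2 : (0 : ℝ) ≤ 10 ^ 12 / (b : ℝ) ^ 2 := by positivity
    rcases min_choice (R * Qr U b) ((b : ℝ) / 1000) with h | h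
    · have h7 : Dth R U b ^ 4 = R ^ 4 * (U * b) := by
        unfold Dth
        rw [h, mul_pow, Qr_pow]
      have h8 : (b : ℝ) ^ 2 / Dth R U b ^ 4 = b / (R ^ 4 * U) := by
        rw [h7]
        field_simp
      linarith
    · have h7 : Dth R U b ^ 4 = ((b : ℝ) / 1000) ^ 4 := by
        unfold Dth
        rw [h]
      have h8 : (b : ℝ) ^ 2 / Dth R U b ^ 4 = 10 ^ 12 / b ^ 2 := by
        rw [h7]
        field_simp
        norm_num
      linarith
  linarith

/-! ### The potential -/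

/-- The bound for the sum of the probabilities of the levels below `b`. -/
noncomputable def Phi1 (C R : ℝ) (L U b : ℕ) : ℝ :=
  C * (400 * b / (R ^ 4 * U) + 400 * (10 ^ 12 + 1) * (2 / L - 1 / b))

theorem div_floor {b : ℕ} (hb : 200 ≤ b) : (b : ℝ) / 400 ≤ b - ((b - b / 200 : ℕ) : ℝ) := by
  have h : b ≤ 400 * (b / 200) := by omega
  have h' : (b : ℝ) ≤ 400 * ((b / 200 : ℕ) : ℝ) := by exact_mod_cast h
  rw [Nat.cast_sub (Nat.div_le_self b 200)]
  linarith

theorem Phi1_nonneg {C R : ℝ} (hC : 0 < C) (hR : 1 ≤ R) {L U b : ℕ} (hL : 1 ≤ L) (hb : L < 2 * b) :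
    0 ≤ Phi1 C R L U b := by
  have hb0 : (0 : ℝ) < b := by exact_mod_cast (by omega : 0 < b)
  have hL0 : (0 : ℝ) < L := by exact_mod_cast hL
  have h1 : 1 / (b : ℝ) ≤ 2 / L := by
    rw [div_le_div_iff₀ hb0 hL0]
    have : (L : ℝ) < 2 * b := by exact_mod_cast hb
    linarith
  have h2 : 0 ≤ 2 / (L : ℝ) - 1 / b := by linarith
  have h3 : 0 < R := by linarith
  unfold Phi1
  positivity

theorem Phi1_step {C R : ℝ} (hC : 0 < C) (hR : 1 ≤ R) {L U b : ℕ} (hU : 1 ≤ U) (hb : 1000 ≤ b) :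
    C * (b / (R ^ 4 * U) + (10 ^ 12 + 1) / b ^ 2) ≤
      Phi1 C R L U b - Phi1 C R L U (b - b / 200) := by
  have hb0 : (0 : ℝ) < b := by exact_mod_cast (by omega : 0 < b)
  have hb1 : (1 : ℝ) ≤ b := by exact_mod_cast (by omega : 1 ≤ b)
  have hU0 : (0 : ℝ) < U := by exact_mod_cast hU
  have hR0 : 0 < R := by linarith
  have h1 := div_floor (show 200 ≤ b by omega)
  set b' : ℕ := b - b / 200 with hb'
  have hb'0 : (0 : ℝ) < (b' : ℝ) := by exact_mod_cast (by omega : 0 < b')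
  have h2 : (b : ℝ) / (R ^ 4 * U) ≤ 400 * b / (R ^ 4 * U) - 400 * (b' : ℝ) / (R ^ 4 * U) := by
    rw [← sub_div]
    refine div_le_div_of_nonneg_right ?_ (by positivity)
    linarith
  have h3 : 1 / (b : ℝ) ^ 2 ≤ 400 * (1 / (b' : ℝ) - 1 / b) := by
    have e1 : 1 / (b' : ℝ) - 1 / b = (b - b') / (b' * b) := by
      field_simp
    have hbb : (b' : ℝ) ≤ b := by
      have : (0 : ℝ) ≤ b / 400 := by positivity
      linarith
    have e2 : (1 : ℝ) / 400 * (1 / b) ≤ (b - b') / (b' * b) := by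
      rw [div_mul_div_comm, one_mul, div_le_div_iff₀ (by positivity) (by positivity)]
      have : (b' : ℝ) * b ≤ b * b := by gcongr
      nlinarith
    have e3 : 1 / (b : ℝ) ^ 2 ≤ 1 / b := by
      rw [div_le_div_iff₀ (by positivity) hb0]
      nlinarith
    rw [e1]
    linarith
  have h4 : (10 ^ 12 + 1) / (b : ℝ) ^ 2 ≤
      400 * (10 ^ 12 + 1) * (2 / (L : ℝ) - 1 / b) - 400 * (10 ^ 12 + 1) * (2 / (L : ℝ) - 1 / b') := by
    have e : (10 ^ 12 + 1) / (b : ℝ) ^ 2 = (10 ^ 12 + 1) * (1 / (b : ℝ) ^ 2) := by ring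
    rw [e]
    nlinarith
  unfold Phi1
  rw [← mul_sub]
  refine mul_le_mul_of_nonneg_left ?_ hC.le
  linarith

/-! ### The exceptional set of a block -/

/-- The exceptional set of the level `b` in the block `U`. -/
noncomputable def EU (d : Bool) (R : ℝ) (U b : ℕ) : Set ℕ :=
  ES d ((⌈Dth R U b⌉₊ : ℕ) : ℝ) (b / 20)

theorem block_bad (hBCS : BCSStatement) (ε : ℝ) (hε : 0 < ε) : ∃ (R : ℝ) (L : ℕ), 1 ≤ R ∧
    1000 ≤ L ∧ ∀ (d : Bool) (U : ℕ), L ≤ U → Gd {n : ℕ | ∃ j : ℕ, L < lev (U + 1) j ∧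
      n ∈ HB d (lev (U + 1) j) (EU d R U (lev (U + 1) j))} U ≤ ε := by
  obtain ⟨C₀, a₀, hC₀, hbc⟩ := hBCS 2
  set C : ℝ := C₀ + 1 with hC
  have hC1 : 0 < C := by linarith
  obtain ⟨R, hR1, hR⟩ : ∃ R : ℝ, 1 ≤ R ∧ C * (800 / R ^ 4) ≤ ε / 2 := by
    refine ⟨max 1 (1600 * C / ε), le_max_left _ _, ?_⟩
    set R := max 1 (1600 * C / ε) with hRdef
    have h1 : 1 ≤ R := le_max_left _ _
    have h2 : 1600 * C / ε ≤ R := le_max_right _ _
    rw [div_le_iff₀ hε] at h2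
    have h3 : R ≤ R ^ 4 := by
      calc R = R ^ 1 := (pow_one R).symm
        _ ≤ R ^ 4 := pow_le_pow_right₀ h1 (by norm_num)
    rw [← mul_div_assoc, div_le_iff₀ (by positivity)]
    nlinarith
  obtain ⟨L, hL0, hL1, hL⟩ : ∃ L : ℕ, a₀ ≤ L ∧ 1000 ≤ L ∧
      C * (400 * (10 ^ 12 + 1) * (2 / L)) ≤ ε / 2 := by
    refine ⟨max (max a₀ 1000) ⌈1600 * C * (10 ^ 12 + 1) / ε⌉₊,
      (le_max_left _ _).trans (le_max_left _ _), (le_max_right _ _).trans (le_max_left _ _), ?_⟩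
    set L := max (max a₀ 1000) ⌈1600 * C * (10 ^ 12 + 1) / ε⌉₊ with hLdef
    have h1 : 1000 ≤ L := (le_max_right _ _).trans (le_max_left _ _)
    have h2 : 1600 * C * (10 ^ 12 + 1) / ε ≤ L :=
      (Nat.le_ceil _).trans (Nat.cast_le.2 (le_max_right _ _))
    rw [div_le_iff₀ hε] at h2
    have h3 : (0 : ℝ) < L := by exact_mod_cast (by omega : 0 < L)
    have e : C * (400 * (10 ^ 12 + 1) * (2 / (L : ℝ))) = 800 * C * (10 ^ 12 + 1) / L := by ring
    rw [e, div_le_iff₀ h3]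
    linarith
  refine ⟨R, L, hR1, hL1, fun d U hU => ?_⟩
  have hU1 : 1 ≤ U := by omega
  have hR0 : 0 < R := by linarith
  have h1 := unionS L (by omega) (fun b => HB d b (EU d R U b)) (Phi1 C R L U) U
    (fun a ha => Phi1_nonneg hC1 hR1 (by omega) ha) (U + 1) (by omega) (fun j hj => by
      have hlev := lev_le (U + 1) j
      obtain ⟨b, hb⟩ : ∃ b, b = lev (U + 1) j := ⟨_, rfl⟩
      rw [← hb] at hj hlev ⊢
      have hb0 : (0 : ℝ) < b := by exact_mod_cast (by omega : 0 < b)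
      have hU0 : (0 : ℝ) < U := by exact_mod_cast hU1
      set p : ℝ := 2 * Real.exp (-(((⌈Dth R U b⌉₊ : ℕ) : ℝ) ^ 2 / (2 * ((b / 20 : ℕ) : ℝ)))) with hp
      have h2 := maxS d (b / 20) ((⌈Dth R U b⌉₊ : ℕ) : ℝ) (Nat.cast_nonneg _)
      have h3 : p ≤ b / (R ^ 4 * U) + 10 ^ 12 / b ^ 2 := cost hR1 hU1 (by omega)
      have h4 : Gd (HB d b (EU d R U b)) U ≤ C * (p + 1 / (b : ℝ) ^ 2) := by
        have hp0 : 0 ≤ p := by positivity
        have hb2 : 0 ≤ 1 / (b : ℝ) ^ 2 := by positivity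
        rcases Nat.lt_or_ge U b with h5 | h5
        · have h6 : b = U + 1 := by omega
          have h7 := topS d U (b / 20) (EU d R U b) p (by omega)
            (fun m n h => ES_congr d _ _ h) h2
          rw [← h6] at h7
          nlinarith
        · have h7 := hbc d b (b / 20) (EU d R U b) p (by omega) le_rfl
            (fun m n h => ES_congr d _ _ h) h2 U (by exact_mod_cast h5)
          nlinarith
      refine h4.trans (le_trans ?_ (Phi1_step hC1 hR1 hU1 (by omega)))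
      refine mul_le_mul_of_nonneg_left ?_ hC1.le
      have e : (10 ^ 12 + 1) / (b : ℝ) ^ 2 = 10 ^ 12 / (b : ℝ) ^ 2 + 1 / (b : ℝ) ^ 2 := by ring
      rw [e]
      linarith)
  refine h1.trans ?_
  have hU0 : (0 : ℝ) < U := by exact_mod_cast hU1
  have h2 : 400 * ((U + 1 : ℕ) : ℝ) / (R ^ 4 * U) ≤ 800 / R ^ 4 := by
    rw [div_le_div_iff₀ (by positivity) (by positivity)]
    have : ((U + 1 : ℕ) : ℝ) ≤ 2 * U := by
      have : U + 1 ≤ 2 * U := by omega
      exact_mod_cast this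
    have h3 : 0 < R ^ 4 := by positivity
    nlinarith
  have h3 : 2 / (L : ℝ) - 1 / ((U + 1 : ℕ) : ℝ) ≤ 2 / L := by
    have : (0 : ℝ) ≤ 1 / ((U + 1 : ℕ) : ℝ) := by positivity
    linarith
  unfold Phi1
  have h4 : C * (400 * ((U + 1 : ℕ) : ℝ) / (R ^ 4 * U) +
      400 * (10 ^ 12 + 1) * (2 / (L : ℝ) - 1 / ((U + 1 : ℕ) : ℝ))) ≤
      C * (800 / R ^ 4 + 400 * (10 ^ 12 + 1) * (2 / (L : ℝ))) := by
    refine mul_le_mul_of_nonneg_left ?_ hC1.le
    refine add_le_add h2 ?_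
    refine mul_le_mul_of_nonneg_left h3 (by norm_num)
  rw [mul_add] at h4
  linarith

/-! ### The chain -/

theorem Qr_shrink (U b : ℕ) (hb : 200 ≤ b) : Qr U (b - b / 200) ≤ 1599 / 1600 * Qr U b := by
  have h1 := div_floor hb
  have h2 : Qr U (b - b / 200) ^ 4 ≤ (1599 / 1600 * Qr U b) ^ 4 := by
    rw [mul_pow, Qr_pow, Qr_pow]
    have h3 : ((b - b / 200 : ℕ) : ℝ) ≤ 399 / 400 * b := by linarith
    have h4 : (0 : ℝ) ≤ (U : ℝ) * b := by positivity
    calc (U : ℝ) * ((b - b / 200 : ℕ) : ℝ) ≤ U * (399 / 400 * b) := by gcongr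
      _ = 399 / 400 * (U * b) := by ring
      _ ≤ (1599 / 1600) ^ 4 * (U * b) := by
        refine mul_le_mul_of_nonneg_right ?_ h4
        norm_num
  exact (pow_le_pow_iff_left₀ (Qr_nonneg _ _)
    (mul_nonneg (by norm_num) (Qr_nonneg _ _)) (by norm_num)).1 h2

/-- The deviations in the block `U`. -/
theorem block_good (d : Bool) (R : ℝ) (L U : ℕ) (hR : 1 ≤ R) (hL : 1000 ≤ L) (hU : 1 ≤ U)
    (n : ℕ) (hn : 2 ^ U ≤ n) (hn' : n < 2 ^ (U + 1))
    (hgood : ∀ j : ℕ, L < lev (U + 1) j →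
      n ∉ HB d (lev (U + 1) j) (EU d R U (lev (U + 1) j))) (k : ℕ)
    (hk : ∀ t ≤ k, 2 ^ L ≤ (T d)^[t] n) :
    |Real.logb 2 ((T d)^[k] n) - (Real.logb 2 n - mu * k)| ≤ 4800 * R * Qr U (U + 1) := by
  have hn0 : n ≠ 0 := by
    have : 0 < 2 ^ U := by positivity
    omega
  have hlog : Nat.log 2 n = U := Nat.log_eq_of_pow_le_of_lt_pow hn hn'
  have hR0 : 0 < R := by linarith
  have h := chainS d n L (fun k => Real.logb 2 ((T d)^[k] n) + mu * k)
    (fun b => 3 * Dth R U b) (fun b => 4800 * R * Qr U b) (by omega)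
    (fun a => mul_nonneg (by positivity) (Qr_nonneg _ _)) (U + 1) (by
      intro j i hj hi hi'
      have hgj := hgood j hj
      have hlev := lev_le (U + 1) j
      set b := lev (U + 1) j with hb
      have hm := passage_ge d n b i hn0 (by omega) hi'
      have hE : (T d)^[i] n ∉ EU d R U b := fun h => hgj ⟨i, hi, hi', h⟩
      have hod : ∀ s : ℕ, s ≤ b / 20 → |2 * (od d s ((T d)^[i] n) : ℝ) - s| ≤
          ((⌈Dth R U b⌉₊ : ℕ) : ℝ) := by
        intro s hs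
        by_contra h
        push Not at h
        exact hE ⟨s, hs, h⟩
      have hD1 := Dth_one hR hU (show 1000 ≤ b by omega)
      have hDc : ((⌈Dth R U b⌉₊ : ℕ) : ℝ) < Dth R U b + 1 := Nat.ceil_lt_add_one (by linarith)
      have hD2 : Dth R U b ≤ (b : ℝ) / 1000 := min_le_right _ _
      have hth : th * ((⌈Dth R U b⌉₊ : ℕ) : ℝ) ≤ 8 / 5 * (Dth R U b + 1) :=
        mul_le_mul th_lt.le hDc.le (Nat.cast_nonneg _) (by norm_num)
      have hb1 : (1000 : ℝ) ≤ b := by exact_mod_cast (by omega : 1000 ≤ b)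
      constructor
      · intro s hs
        have h1 := path_log d ((T d)^[i] n) s (b - 1) ⌈Dth R U b⌉₊ hm (by omega) (hod s hs)
        rw [← Function.iterate_add_apply, add_comm s i] at h1
        have e : Real.logb 2 ((T d)^[i + s] n) + mu * ((i + s : ℕ) : ℝ) -
            (Real.logb 2 ((T d)^[i] n) + mu * i) =
            Real.logb 2 ((T d)^[i + s] n) - (Real.logb 2 ((T d)^[i] n) - mu * s) := by
          push_cast
          ring
        rw [e]
        refine h1.trans ?_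
        linarith
      · have h1 := path_log d ((T d)^[i] n) (b / 20) (b - 1) ⌈Dth R U b⌉₊ hm (by omega)
          (hod _ le_rfl)
        rw [← Function.iterate_add_apply, add_comm (b / 20) i] at h1
        have h3 : Real.logb 2 ((T d)^[i] n) < b := by
          have h4 : (0 : ℝ) < (((T d)^[i] n : ℕ) : ℝ) := by
            have : 0 < (T d)^[i] n := lt_of_lt_of_le (by positivity) hm
            exact_mod_cast this
          rw [Real.logb_lt_iff_lt_rpow (by norm_num) h4, Real.rpow_natCast]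
          exact_mod_cast hi
        have h5 : (1 / 5 : ℝ) * ((b : ℝ) / 20 - 1) ≤ mu * ((b / 20 : ℕ) : ℝ) := by
          have h6 : (b : ℝ) / 20 - 1 ≤ ((b / 20 : ℕ) : ℝ) := by
            have h7 : b ≤ 20 * (b / 20) + 20 := by omega
            have h8 : (b : ℝ) ≤ 20 * ((b / 20 : ℕ) : ℝ) + 20 := by exact_mod_cast h7
            linarith
          exact mul_le_mul mu_gt.le h6 (by linarith) (by linarith [mu_gt])
        have h10 : Real.logb 2 ((T d)^[i + b / 20] n) < ((b - b / 200 : ℕ) : ℝ) := by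
          have h11 : ((b - b / 200 : ℕ) : ℝ) ≥ b - (b : ℝ) / 200 := by
            have h12 : 199 * b ≤ 200 * (b - b / 200) := by omega
            have h13 : (199 : ℝ) * b ≤ 200 * ((b - b / 200 : ℕ) : ℝ) := by exact_mod_cast h12
            linarith
          have h14 := (abs_le.1 h1).2
          linarith
        rcases Nat.eq_zero_or_pos ((T d)^[i + b / 20] n) with h16 | h16
        · rw [h16]
          positivity
        · rw [Real.logb_lt_iff_lt_rpow (by norm_num) (by exact_mod_cast h16),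
            Real.rpow_natCast] at h10
          exact_mod_cast h10) (by
      intro j hj
      set b := lev (U + 1) j with hb
      have h1 := Qr_shrink U b (by omega)
      have h2 : Dth R U b ≤ R * Qr U b := min_le_left _ _
      have h3 : 4800 * R * Qr U (b - b / 200) ≤ 4800 * R * (1599 / 1600 * Qr U b) := by gcongr
      show 4800 * R * Qr U (b - b / 200) + 3 * Dth R U b ≤ 4800 * R * Qr U b
      linarith) 0 hn' (by omega) k (Nat.zero_le _) hk
  simp only [Function.iterate_zero, id_eq, Nat.cast_zero, mul_zero, add_zero] at h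
  have e : Real.logb 2 ((T d)^[k] n) - (Real.logb 2 n - mu * k) =
      Real.logb 2 ((T d)^[k] n) + mu * k - Real.logb 2 n := by ring
  rw [e]
  exact h

/-! ### The theorem -/

theorem lineS (hBCS : BCSStatement) : LineSStatement := by
  intro d g ψ hg hψ
  refine densS _ fun ε hε => ?_
  obtain ⟨R, L, hR, hL, hbad⟩ := block_bad hBCS ε hε
  obtain ⟨n₀, hn₀⟩ := eventually_atTop.1 ((hg.eventually_ge_atTop ((2 : ℝ) ^ L)).and
    (hψ.eventually_ge_atTop (12000 * R)))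
  refine ⟨max L n₀, fun U hU => ?_⟩
  have hUL : L ≤ U := (le_max_left _ _).trans hU
  have hUn : n₀ ≤ U := (le_max_right _ _).trans hU
  refine (gd_mono_nat U fun n hn1 hn2 hn3 => ?_).trans (hbad d U hUL)
  by_contra hcon
  apply hn3
  have hnn₀ : n₀ ≤ n := hUn.trans ((Nat.lt_two_pow_self).le.trans hn1)
  obtain ⟨h1, h2⟩ := hn₀ n hnn₀
  intro k hk
  have h3 := block_good d R L U hR hL (by omega) n hn1 hn2
    (fun j hj h => hcon ⟨j, hj, h⟩) k (fun t ht => by exact_mod_cast h1.trans (hk t ht))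
  have hl2 : 0 < Real.log 2 := Real.log_pos (by norm_num)
  have e : Real.log ((T d)^[k] n) - (Real.log n - nu * k) =
      Real.log 2 * (Real.logb 2 ((T d)^[k] n) - (Real.logb 2 n - mu * k)) := by
    rw [nu_eq, Real.logb, Real.logb]
    field_simp
  rw [e, abs_mul, abs_of_pos hl2]
  have hU0 : (0 : ℝ) ≤ U := Nat.cast_nonneg U
  -- the size of the logarithm
  have h4 : 8 / 10 * √(U : ℝ) ≤ √(Real.log n) := by
    have h5 : (U : ℝ) * Real.log 2 ≤ Real.log n := by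
      have h6 : ((2 ^ U : ℕ) : ℝ) ≤ n := by exact_mod_cast hn1
      have h7 := Real.log_le_log (by positivity) h6
      rwa [Nat.cast_pow, Real.log_pow] at h7
    have h6 : (8 / 10 * √(U : ℝ)) ^ 2 ≤ Real.log n := by
      rw [mul_pow, Real.sq_sqrt hU0]
      have := Real.log_two_gt_d9
      nlinarith
    exact Real.le_sqrt_of_sq_le h6
  have h5 : Qr U (U + 1) ≤ 2 * √(U : ℝ) := by
    have h6 : Qr U (U + 1) ^ 4 ≤ (2 * √(U : ℝ)) ^ 4 := by
      rw [Qr_pow]
      have e1 : (2 * √(U : ℝ)) ^ 4 = 16 * (√(U : ℝ) ^ 2) ^ 2 := by ring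
      rw [e1, Real.sq_sqrt hU0]
      have e2 : ((U + 1 : ℕ) : ℝ) ≤ 2 * U := by exact_mod_cast (by omega : U + 1 ≤ 2 * U)
      nlinarith
    exact (pow_le_pow_iff_left₀ (Qr_nonneg _ _) (by positivity) (by norm_num)).1 h6
  have hl1 : Real.log 2 ≤ 1 := by
    have := Real.log_two_lt_d9
    linarith
  have hR0 : 0 < R := by linarith
  calc Real.log 2 * |Real.logb 2 ((T d)^[k] n) - (Real.logb 2 n - mu * k)|
      ≤ 1 * (4800 * R * (2 * √(U : ℝ))) := by
        refine mul_le_mul hl1 (h3.trans ?_) (abs_nonneg _) (by norm_num)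
        gcongr
    _ = 12000 * R * (8 / 10 * √(U : ℝ)) := by ring
    _ ≤ ψ n * √(Real.log n) := by
        refine mul_le_mul h2 h4 (by positivity) ?_
        exact le_trans (by positivity) h2

end Pool.Agent.Lib.MP_edb5be_nt.TS.H62
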