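import Pool.Agent.Lib.MP_edb5be_nt.TS.H62.Line
import Pool.Agent.Lib.MP_edb5be_nt.TS.H17.BC

/-!
Project TS, second stage: the chain of levels, with thresholds that depend on the block.
-/

set_option autoImplicit false

namespace Pool.Agent.Lib.MP_edb5be_nt.TS.H62

open Finset Filter Topology Pool.Agent.Lib.MP_0a5adf_nt Pool.Agent.Lib.MP_0a5adf_nt.TP
  Pool.Agent.Lib.MP_edb5be_nt.ND Pool.Agent.Lib.MP_edb5be_nt.TS

/-! ### The levels -/

/-- The levels `a`, `a - a / 200`, … -/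
def lev (a j : ℕ) : ℕ := (fun b => b - b / 200)^[j] a

theorem lev_zero (a : ℕ) : lev a 0 = a := rfl

theorem lev_succ (a j : ℕ) : lev a (j + 1) = lev (a - a / 200) j :=
  Function.iterate_succ_apply _ _ _

theorem lev_le (a j : ℕ) : lev a j ≤ a := by
  induction j generalizing a with
  | zero => exact le_rfl
  | succ j ih => rw [lev_succ]; exact (ih _).trans (Nat.sub_le _ _)

/-- The chain: increments of a function of the time along the levels. -/
theorem chainS (d : Bool) (n L : ℕ) (F : ℕ → ℝ) (Dv Bv : ℕ → ℝ) (hL : 200 ≤ L)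
    (hB : ∀ a, 0 ≤ Bv a) (a : ℕ)
    (hstep : ∀ j i : ℕ, L < lev a j → (T d)^[i] n < 2 ^ lev a j →
      (∀ t < i, 2 ^ lev a j ≤ (T d)^[t] n) →
      (∀ s ≤ lev a j / 20, |F (i + s) - F i| ≤ Dv (lev a j)) ∧
        (T d)^[i + lev a j / 20] n < 2 ^ (lev a j - lev a j / 200))
    (hDB : ∀ j : ℕ, L < lev a j → Bv (lev a j - lev a j / 200) + Dv (lev a j) ≤ Bv (lev a j))
    (i : ℕ) (hi : (T d)^[i] n < 2 ^ a) (hi' : ∀ t < i, 2 ^ a ≤ (T d)^[t] n) (k : ℕ) (hik : i ≤ k)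
    (hk : ∀ t ≤ k, 2 ^ L ≤ (T d)^[t] n) : |F k - F i| ≤ Bv a := by
  induction a using Nat.strong_induction_on generalizing i with
  | _ a ih =>
    have hLa : L < a := (Nat.pow_lt_pow_iff_right (by norm_num)).1 ((hk i hik).trans_lt hi)
    obtain ⟨h1, h2⟩ := hstep 0 i (by rwa [lev_zero]) (by rwa [lev_zero]) (by rwa [lev_zero])
    have h3 := hDB 0 (by rwa [lev_zero])
    rw [lev_zero] at h1 h2 h3
    by_cases hs : k - i ≤ a / 20
    · have h4 := h1 (k - i) hs
      rw [Nat.add_sub_cancel' hik] at h4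
      have h5 := hB (a - a / 200)
      linarith
    · push Not at hs
      classical
      have hex : ∃ s : ℕ, (T d)^[i + s] n < 2 ^ (a - a / 200) := ⟨_, h2⟩
      obtain ⟨s₁, hs₁⟩ : ∃ s₁, s₁ = Nat.find hex := ⟨_, rfl⟩
      have h4 : (T d)^[i + s₁] n < 2 ^ (a - a / 200) := by rw [hs₁]; exact Nat.find_spec hex
      have h5 : s₁ ≤ a / 20 := by rw [hs₁]; exact Nat.find_min' hex h2
      have h6 : ∀ s < s₁, 2 ^ (a - a / 200) ≤ (T d)^[i + s] n := fun s hs =>
        not_lt.1 (Nat.find_min hex (by rwa [← hs₁]))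
      have h7 := ih (a - a / 200) (by omega)
        (fun j i hj => by rw [← lev_succ] at hj ⊢; exact hstep (j + 1) i hj)
        (fun j hj => by rw [← lev_succ] at hj ⊢; exact hDB (j + 1) hj)
        (i + s₁) h4 (by
          intro t ht
          rcases Nat.lt_or_ge t i with h8 | h8
          · exact (Nat.pow_le_pow_right (by norm_num) (Nat.sub_le _ _)).trans (hi' t h8)
          · obtain ⟨s, rfl⟩ := Nat.exists_eq_add_of_le h8
            exact h6 s (by omega)) (by omega)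
      have h8 := h1 s₁ h5
      calc |F k - F i| = |(F k - F (i + s₁)) + (F (i + s₁) - F i)| := by ring_nf
        _ ≤ |F k - F (i + s₁)| + |F (i + s₁) - F i| := abs_add_le _ _
        _ ≤ Bv a := by linarith

/-! ### Blocks -/

theorem gd_nat (B : Set ℕ) (U : ℕ) [DecidablePred fun N => N ∈ B] :
    Gd B U = (((Ico (2 ^ U) (2 ^ (U + 1))).filter fun N => N ∈ B).card : ℝ) / 2 ^ U := by
  unfold Gd
  have h : {N : ℕ | N ∈ B ∧ (2 : ℝ) ^ (U : ℝ) ≤ N ∧ (N : ℝ) < 2 ^ ((U : ℝ) + 1)} =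
      (((Ico (2 ^ U) (2 ^ (U + 1))).filter fun N => N ∈ B : Finset ℕ) : Set ℕ) := by
    ext N
    rw [mem_coe, mem_filter, mem_Ico, Set.mem_ofPred_eq, Real.rpow_natCast,
      show ((U : ℝ) + 1) = ((U + 1 : ℕ) : ℝ) by push_cast; ring, Real.rpow_natCast]
    constructor
    · rintro ⟨h1, h2, h3⟩
      exact ⟨⟨by exact_mod_cast h2, by exact_mod_cast h3⟩, h1⟩
    · rintro ⟨⟨h2, h3⟩, h1⟩
      exact ⟨h1, by exact_mod_cast h2, by exact_mod_cast h3⟩
  rw [h, Set.ncard_coe_finset, Real.rpow_natCast]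

theorem gd_mono_nat {A B : Set ℕ} (U : ℕ)
    (h : ∀ N : ℕ, 2 ^ U ≤ N → N < 2 ^ (U + 1) → N ∈ A → N ∈ B) : Gd A U ≤ Gd B U := by
  classical
  rw [gd_nat, gd_nat]
  refine div_le_div_of_nonneg_right ?_ (by positivity)
  rw [Nat.cast_le]
  refine card_le_card fun N hN => ?_
  rw [mem_filter, mem_Ico] at hN ⊢
  exact ⟨hN.1, h N hN.1.1 hN.1.2 hN.2⟩

theorem gd_union_nat (A B : Set ℕ) (U : ℕ) : Gd (A ∪ B) U ≤ Gd A U + Gd B U := by
  classical
  rw [gd_nat, gd_nat, gd_nat, ← add_div]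
  refine div_le_div_of_nonneg_right ?_ (by positivity)
  rw [← Nat.cast_add, Nat.cast_le]
  refine le_trans (card_le_card fun N hN => ?_) (card_union_le _ _)
  have hN' := mem_filter.1 hN
  rw [mem_union, mem_filter, mem_filter]
  rcases hN'.2 with h | h
  · exact Or.inl ⟨hN'.1, h⟩
  · exact Or.inr ⟨hN'.1, h⟩

theorem gd_empty (U : ℕ) : Gd (∅ : Set ℕ) U = 0 := by
  classical
  rw [gd_nat]
  simp

/-- The union bound along the levels. -/
theorem unionS (L : ℕ) (hL : 200 ≤ L) (bad : ℕ → Set ℕ) (Φ : ℕ → ℝ) (U : ℕ)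
    (hΦ : ∀ a, L < 2 * a → 0 ≤ Φ a) (a : ℕ) (ha : L < 2 * a)
    (h : ∀ j : ℕ, L < lev a j →
      Gd (bad (lev a j)) U ≤ Φ (lev a j) - Φ (lev a j - lev a j / 200)) :
    Gd {n : ℕ | ∃ j : ℕ, L < lev a j ∧ n ∈ bad (lev a j)} U ≤ Φ a := by
  induction a using Nat.strong_induction_on with
  | _ a ih =>
    by_cases hLa : L < a
    · have h1 := h 0 (by rwa [lev_zero])
      rw [lev_zero] at h1
      have h2 := ih (a - a / 200) (by omega) (by omega)
        (fun j hj => by rw [← lev_succ] at hj ⊢; exact h (j + 1) hj)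
      have h3 : Gd {n : ℕ | ∃ j : ℕ, L < lev a j ∧ n ∈ bad (lev a j)} U ≤
          Gd (bad a ∪ {n : ℕ | ∃ j : ℕ, L < lev (a - a / 200) j ∧
            n ∈ bad (lev (a - a / 200) j)}) U := by
        refine gd_mono_nat U fun N _ _ hN => ?_
        obtain ⟨j, hj, hN⟩ := hN
        rcases j with _ | j
        · exact Or.inl hN
        · rw [lev_succ] at hj hN
          exact Or.inr ⟨j, hj, hN⟩
      have h4 := gd_union_nat (bad a) {n : ℕ | ∃ j : ℕ, L < lev (a - a / 200) j ∧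
            n ∈ bad (lev (a - a / 200) j)} U
      linarith
    · have h1 : {n : ℕ | ∃ j : ℕ, L < lev a j ∧ n ∈ bad (lev a j)} = ∅ := by
        rw [Set.eq_empty_iff_forall_notMem]
        rintro n ⟨j, hj, -⟩
        have := lev_le a j
        omega
      rw [h1, gd_empty]
      exact hΦ a ha

open Classical in
/-- The top level. -/
theorem topS (d : Bool) (U k : ℕ) (E : Set ℕ) (p : ℝ) (hk : k ≤ U)
    (hE : ∀ m n : ℕ, m ≡ n [MOD 2 ^ k] → (m ∈ E ↔ n ∈ E))
    (hp : (((range (2 ^ k)).filter fun r => r ∈ E).card : ℝ) ≤ p * 2 ^ k) :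
    Gd (HB d (U + 1) E) U ≤ p := by
  rw [gd_nat, div_le_iff₀ (by positivity)]
  have h1 : ((Ico (2 ^ U) (2 ^ (U + 1))).filter fun N => N ∈ HB d (U + 1) E).card ≤
      ((Ico (2 ^ U) (2 ^ (U + 1))).filter
        fun N => par d ((T d)^[0] N) k ∈ H17.wd d k E).card := by
    refine card_le_card fun N hN => ?_
    rw [mem_filter, mem_Ico] at hN
    rw [mem_filter, mem_Ico]
    obtain ⟨⟨h1, h2⟩, i, h3, h4, h5⟩ := hN
    have hi : i = 0 := by
      by_contra hi
      have := h4 0 (by omega)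
      simp only [Function.iterate_zero, id_eq] at this
      omega
    subst hi
    exact ⟨⟨h1, h2⟩, H17.mem_wd hE h5⟩
  have h2 := H17.count_iter TP.cntParT d (i := 0) (k := k) (L := U) (by omega) (H17.wd d k E)
  have h3 : ((H17.wd d k E).card : ℝ) ≤ p * 2 ^ k := by
    refine le_trans ?_ hp
    exact_mod_cast H17.card_wd d k E
  calc (((Ico (2 ^ U) (2 ^ (U + 1))).filter fun N => N ∈ HB d (U + 1) E).card : ℝ)
      ≤ ((2 ^ (U - k) * (H17.wd d k E).card : ℕ) : ℝ) := by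
        rw [Nat.cast_le]
        refine h1.trans (le_trans (le_of_eq ?_) h2)
        congr
    _ = 2 ^ (U - k) * ((H17.wd d k E).card : ℝ) := by push_cast; ring
    _ ≤ 2 ^ (U - k) * (p * 2 ^ k) := by gcongr
    _ = p * 2 ^ U := by
        have : (2 : ℝ) ^ U = 2 ^ (U - k) * 2 ^ k := by
          rw [← pow_add, Nat.sub_add_cancel hk]
        rw [this]
        ring

theorem densS (S : Set ℕ) (h : ∀ ε : ℝ, 0 < ε → ∃ U₀ : ℕ, ∀ U : ℕ, U₀ ≤ U → Gd Sᶜ U ≤ ε) :
    HasDensN S 1 := by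
  classical
  refine H17.dens_one S fun ε hε => ?_
  obtain ⟨U₀, hU₀⟩ := h ε hε
  refine ⟨U₀, fun U hU => ?_⟩
  have h1 := hU₀ U hU
  rw [gd_nat, div_le_iff₀ (by positivity)] at h1
  refine le_trans (Nat.cast_le.2 (card_le_card fun N hN => ?_)) h1
  have hN' := mem_filter.1 hN
  exact mem_filter.2 ⟨hN'.1, hN'.2⟩

end Pool.Agent.Lib.MP_edb5be_nt.TS.H62
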